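import Pool.Agent.Helper76.LC.CanC

set_option autoImplicit false

/-!
# Linear circuits with few additions for Fourier matrices need large cancellations

Morgenstern (1973) proved a lower bound `(n log n) / 2` for linear circuits for the Fourier and
Hadamard matrices of order `n` if the scalars on the edges are bounded.  Here the scalars are
arbitrary real or complex numbers, and the depth is not restricted.  Let `B i j` be the sum, over
the directed paths from the input `j` to the output `i`, of the product of the absolute values of
the scalars on the path (`IsAbs`); so `|A i j| ≤ B i j`, and `B i j` is larger than `|A i j|` if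
there are cancellations.  The quotient of the two sides of this inequality does not change if the
scalars are rescaled at the gates, at the inputs or at the outputs.

Theorem.  Let `A` be a Fourier or Hadamard matrix, or any other matrix with `A Aᴴ = n`, and let `T`
be a set of nodes of a linear circuit for `A`.  Then, for every `k ≤ n - |T|`, there are `k` distinct
outputs and `k` distinct inputs, in a suitable order, such that the sum of the logarithms of the
sums over the paths that avoid `T` is at least `k (log n) / 2 - n - adds` (logarithms to base `2`);
here `adds` is the number of additions.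

So if all these sums are at most `K` then `(n - |T|) ((log n) / 2 - log K) ≤ n + adds`: circuits
with at most `ε n log n` additions have cancellations of order `n ^ (1/2 - 2 ε)`, up to a constant
factor, even after the removal of any `n / 2` nodes.

Proof.  All determinants of forms computed by the circuit are at most `2 ^ adds` times the largest
product of path sums along a transversal, by induction on the gates; the product of path sums along
the best transversal is monotone and homogeneous in every row.  A matrix which differs from `A` by
rank at most `|T|` has a minor of order `k ≤ n - |T|` of absolute value at least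
`n ^ (k / 2) / 2 ^ n`, by the formula of Cauchy and Binet.
-/

namespace Pool.Agent.Results.MP_5daf37_lc.Cancellation

open Pool.Agent.Helper76.LC Matrix

/-- Definitions: `LinCircuit`, `Computes` in `Pool.Agent.Helper76.LC.Defs`; `adds` (number of
additions) in `Pool.Agent.Helper76.LC.Sym`; `IsAbs T` (sums over paths which avoid `T`) in
`Pool.Agent.Helper76.LC.CanA`. -/
theorem result : ∀ (𝕜 : Type) [RCLike 𝕜] (n : ℕ) (A : Matrix (Fin n) (Fin n) 𝕜),
    A * Aᴴ = (n : 𝕜) • (1 : Matrix (Fin n) (Fin n) 𝕜) →
    ∀ C : LinCircuit 𝕜 n, C.Computes A → ∀ (T : Finset C.V) (B : C.V → Fin n → ℝ),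
    C.IsAbs T B → ∀ k : ℕ, T.card + k ≤ n →
      ∃ b a : Fin k → Fin n, Function.Injective b ∧ Function.Injective a ∧
        (∀ i, 0 < B (C.out (b i)) (a i)) ∧
        k * (Real.logb 2 n / 2) ≤ n + C.adds + ∑ i, Real.logb 2 (B (C.out (b i)) (a i)) := by
  intro 𝕜 _ n A hA C hC T B hB k hk
  obtain ⟨b, a, hb, ha, h⟩ := cancel C hA hC hB hk
  have hnk : (0 : ℝ) < (n : ℝ) ^ k := by
    rcases Nat.eq_zero_or_pos k with h0 | h0
    · rw [h0, pow_zero]; exact one_pos
    · have : 0 < n := by omega
      positivity
  have hP : ∏ i, B (C.out (b i)) (a i) ≠ 0 := by
    intro h0
    rw [h0] at h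
    norm_num at h
    linarith
  have hB0 : ∀ i, 0 < B (C.out (b i)) (a i) := fun i =>
    lt_of_le_of_ne (abs_nonneg' hB _ _)
      (Ne.symm fun h0 => hP (Finset.prod_eq_zero (Finset.mem_univ i) h0))
  have hPpos : 0 < ∏ i, B (C.out (b i)) (a i) := Finset.prod_pos fun i _ => hB0 i
  refine ⟨b, a, hb, ha, hB0, ?_⟩
  have h3 := Real.logb_le_logb_of_le (b := 2) (by norm_num) hnk h
  rw [Real.logb_pow, Real.logb_pow, Real.logb_mul (by positivity) (ne_of_gt hPpos),
    Real.logb_pow, Real.logb_self_eq_one (by norm_num), Real.logb_prod _ _
      (fun i _ => (hB0 i).ne')] at h3
  push_cast at h3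
  linarith

end Pool.Agent.Results.MP_5daf37_lc.Cancellation
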