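import Pool.Agent.Helper76.LC.Asym

set_option autoImplicit false

/-!
# Rigidity and linear circuits of unbounded depth with few paths

Valiant (1977): a linear circuit of size `O(n)` and depth `O(log n)` computes a matrix which is the
sum of a matrix of rank `ε n` and of a matrix with `n ^ δ` nonzero entries in each row.  Here the
depth is not restricted; it suffices that each output is reached by at most
`2 ^ ((log n) ^ (1 + η))` paths (for instance by polynomially many), even after the removal of
`(ε / 2) n` nodes.

Proof.  Let `a v` be the number of paths from the inputs to `v`.  The edges `(u, v)` for which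
`a u` and `a v` lie between the same powers of `2` form a forest, as two of them which end in
the same node would double `a`; all its paths are cut into pieces of length `k` by the removal of
one of the `k` classes of nodes according to their height modulo `k`.  For the other edges
`⌊log a⌋` increases strictly, and Valiant's argument applies to this label in place of the depth.
-/

namespace Pool.Agent.Results.MP_5daf37_lc.FewPathsRigidity

open Pool.Agent.Helper76.LC

/-- Definitions: `LinCircuit` (linear circuits), `size`, `Computes`, `IsCount` in
`Pool.Agent.Helper76.LC.Defs`; `Rigid` in `Pool.Agent.Helper76.LC.Asym`.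

For all positive `K, ε, δ` there is `η > 0` such that for all large `n` the following holds over
every field: if `A` is `(ε n, n ^ (1 + δ))`-rigid then in every linear circuit of size at most `K n`
computing `A`, of any depth, and for every set `T₀` of at most `(ε / 2) n` nodes, more than
`2 ^ ((log n) ^ (1 + η))` paths to some output avoid `T₀`. -/
theorem result : ∀ K ε δ : ℝ, 0 < K → 0 < ε → 0 < δ → ∃ η : ℝ, 0 < η ∧ ∃ n₀ : ℕ, ∀ n : ℕ, n₀ ≤ n →
    ∀ (F : Type) [Field F] (A : Matrix (Fin n) (Fin n) F),
      Rigid A (ε * n) ((n : ℝ) ^ (1 + δ)) → ∀ C : LinCircuit F n, C.Computes A →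
      (C.size : ℝ) ≤ K * n → ∀ T₀ : Finset C.V, (T₀.card : ℝ) ≤ ε / 2 * n →
      ∀ f, C.IsCount T₀ f → ∃ i, (2 : ℝ) ^ ((Real.logb 2 n) ^ (1 + η)) < f (C.out i) :=
  asym

end Pool.Agent.Results.MP_5daf37_lc.FewPathsRigidity
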