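import Pool.Agent.Helper76.LC.FftE

set_option autoImplicit false

/-!
# The fast Fourier transform is exactly optimal among translation symmetric linear circuits

A linear circuit is symmetric with respect to an abelian group `H` which permutes the inputs if
every element of `H` extends to an automorphism of the graph of the circuit, up to nonzero scalars
at the gates (`LinCircuit.Symm`).  There is no restriction on the depth, the fan-in and the
coefficients.  `sopfr h` is the sum of the prime factors of `h` with multiplicity; it is at least
`3 log h / log 3`, and equal to `2 log h / log 2` if `h` is a power of `2`.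

Theorem.  If `H` acts freely on the inputs and all rows of `A` are semi-invariant (eigenvectors of
the translations), then every `H`-symmetric linear circuit for `A` has at least
`rank A * sopfr |H|` edges and at least half as many additions.  Examples: the discrete Fourier
transforms of all abelian groups that contain `H`, and of all finite groups that contain `H` in
bases adapted to `H`; all products `B ⊗ DFT_H`, `B` an arbitrary invertible matrix.

The bounds are sharp: for the discrete Fourier transform of any abelian group `G` of order `n` the
minimum of the number of the edges of `G`-symmetric circuits is exactly `n * sopfr n` (attained by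
the circuits of Cooley and Tukey), and if `n = 2 ^ m` the minimum of the number of the additions is
exactly `n m` (for instance for the Walsh-Hadamard matrices).

Proof of the lower bound.  Let `S_v` be the subgroup of the translations which map the form at the
node `v` to a multiple of itself (`0` for inputs, `H` for outputs), and let `ψ` be a character of
`H`.  For every `t < sopfr |H|` the outputs with character `ψ` are combinations of the
`ψ`-components of the forms at the tails of the edges `(u, v)` with
`sopfr |S_u| ≤ t < sopfr |S_v|`.  The translates of such an edge give `|H| / |S_u ∩ S_v|` edges, and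
the `ψ`-components at both ends of it are different from zero for at most `|H| / |S_u + S_v|`
characters `ψ`; the quotient of these numbers is `[S_u : S_u ∩ S_v] [S_v : S_u ∩ S_v]`, which is at
least the number `sopfr |S_v| - sopfr |S_u|` of the `t` between.
-/

namespace Pool.Agent.Results.MP_5daf37_lc.FourierSymmetric

open Pool.Agent.Helper76.LC Pool.Agent.Helper76.LC.FFT

/-- Definitions: `LinCircuit`, `Computes` in `Pool.Agent.Helper76.LC.Defs`; `LinCircuit.Symm`,
`LinCircuit.adds` (number of additions), `sopfr` in `Pool.Agent.Helper76.LC.Sym`; `tau e c` is the
permutation `j ↦ e⁻¹ (c + e j)` of the inputs (`Pool.Agent.Helper76.LC.FftD`). -/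
theorem result :
    -- the lower bound
    (∀ (F : Type) [Field F] (n : ℕ) (H : Type) [AddCommGroup H] [Fintype H]
      (τ : H → Equiv.Perm (Fin n)), (∀ c d i, τ (c + d) i = τ c (τ d i)) →
      (∀ c i, τ c i = i → c = 0) → (Fintype.card H : F) ≠ 0 →
      ∀ A : Matrix (Fin n) (Fin n) F,
        (∀ i, ∃ ψ : AddChar H F, ∀ c j, A i (τ c j) = ψ c * A i j) →
      ∀ C : LinCircuit F n, C.Symm τ → C.Computes A →
        A.rank * sopfr (Fintype.card H) ≤ C.E.card ∧
        A.rank * sopfr (Fintype.card H) ≤ 2 * C.adds) ∧
    -- its sharpness
    (∀ (F : Type) [Field F] (G : Type) [AddCommGroup G] (n : ℕ) (e : Fin n ≃ G)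
      (χ : Fin n → AddChar G F), Function.Injective χ →
      IsLeast {k | ∃ C : LinCircuit F n, C.Symm (tau e) ∧
        C.Computes (Matrix.of fun i j => χ i (e j)) ∧ C.E.card = k} (n * sopfr n) ∧
      ∀ m : ℕ, n = 2 ^ m → IsLeast {k | ∃ C : LinCircuit F n, C.Symm (tau e) ∧
        C.Computes (Matrix.of fun i j => χ i (e j)) ∧ C.adds = k} (n * m)) :=
  ⟨fun _ _ _ _ _ _ _ hadd hfree hH _ hA C hC hcomp => lower C hadd hfree hC hcomp hA hH,
    fun _ _ _ _ _ e χ hχ => ⟨optimal e χ hχ, optimal_adds e χ hχ⟩⟩

end Pool.Agent.Results.MP_5daf37_lc.FourierSymmetric
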