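import Pool.Agent.Helper76.LC.TriE

set_option autoImplicit false

/-!
# Linear circuits which are symmetric under a triply transitive group are essentially trivial

A linear circuit is symmetric with respect to a group `G` of permutations of the inputs if every
element of `G` extends to an automorphism of the graph of the circuit, up to nonzero scalars at the
gates (`LinCircuit.Symm`). There is no restriction on the depth, the fan-in and the coefficients.
The field is any field of characteristic zero.

Theorem.  Let `G` be transitive on the triples of distinct inputs. If some node of a `G`-symmetric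
linear circuit computes a form which is not of the form `λ x_j + μ (x_1 + ... + x_n)`, then the
circuit has at least `n (n - 2)` edges and at least `n (n - 2) / 2` additions.

This applies to the Walsh-Hadamard matrix of order `n = 2 ^ m` and the group `Aff m` of all affine
bijections `x ↦ M x + a` of the space of the bit vectors of length `m`: there is an
`Aff m`-symmetric circuit with `n ^ 2` edges, the one of depth one, and all of them have at least
`n (n - 2)` edges. For comparison: for circuits which are symmetric under the translations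
`x ↦ x + a` the exact minimum is `2 n m = 2 n log n` (`FourierSymmetric`).

Proof. Let `x` be a point and let `w` be the form at the tail of an edge `(u, v)` such that `w` is
constant outside `x` but the form at `v` is not, and `w` is not constant. The stabilizer of `x`
fixes the form `w`, and the images of the form at `v` under the stabilizer, which is doubly
transitive outside `x`, span a space of dimension at least `n - 2`. So there are at least `n - 2`
edges from nodes with a multiple of the form `w`. The forms `w` that occur for different `x` are not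
proportional, and for each `x` at least one occurs.
-/

namespace Pool.Agent.Results.MP_5daf37_lc.TriplySymmetric

open Pool.Agent.Helper76.LC Pool.Agent.Helper76.LC.FFT Pool.Agent.Helper76.LC.Tri

theorem walsh_lower {F : Type} [Field F] [CharZero F] {m : ℕ} (hm : 2 ≤ m)
    (e : Fin (2 ^ m) ≃ (Fin m → ZMod 2)) (C : LinCircuit F (2 ^ m)) (hsym : C.Symm (actA e))
    (hcomp : C.Computes (walsh F e)) :
    2 ^ m * (2 ^ m - 2) ≤ C.E.card ∧ 2 ^ m * (2 ^ m - 2) ≤ 2 * C.adds := by
  let e' : Fin (2 ^ m) ≃ Fin 1 × (Fin m → ZMod 2) :=
    ⟨fun i => (0, e i), fun p => e.symm p.2, fun i => by simp, fun p => by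
      refine Prod.ext (Subsingleton.elim _ _) (by simp)⟩
  have h1 : (fun g : Aff m => act e' (g : Equiv.Perm _)) = actA e := rfl
  have h2 : (Matrix.of fun i j => (1 : Matrix (Fin 1) (Fin 1) F) (e' i).1 (e' j).1 *
      walshChar F (e' i).2 (e' j).2) = walsh F e := by
    funext i j
    show (1 : Matrix (Fin 1) (Fin 1) F) 0 0 * walshChar F (e i) (e j) = walshChar F (e i) (e j)
    rw [Matrix.one_apply_eq, one_mul]
  refine kron_lower hm 1 ?_ e' C ?_ ?_
  · rw [Matrix.det_one]; exact isUnit_one
  · rw [h1]; exact hsym
  · rw [h2]; exact hcomp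

/-- Definitions: `LinCircuit`, `IsVal`, `Computes` in `Pool.Agent.Helper76.LC.Defs`;
`LinCircuit.Symm`, `LinCircuit.adds` (number of additions) in `Pool.Agent.Helper76.LC.Sym`; `Triple`
in `Pool.Agent.Helper76.LC.TriA`; `Aff m` in `Pool.Agent.Helper76.LC.TriD`; `actA e g` is the
permutation `j ↦ e⁻¹ (g (e j))` (`Pool.Agent.Helper76.LC.TriE`); `walsh F e` is the Walsh-Hadamard
matrix (`Pool.Agent.Helper76.LC.FftE`). -/
theorem result :
    (∀ (F : Type) [Field F] [CharZero F] (n : ℕ) (G : Subgroup (Equiv.Perm (Fin n))),
      Triple G → ∀ C : LinCircuit F n, (C.Symm fun g : G => (g : Equiv.Perm (Fin n))) →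
      ∀ val : C.V → Fin n → F, C.IsVal val → ∀ v : C.V,
      (¬∃ (j : Fin n) (a b : F), ∀ i, val v i = if i = j then a else b) →
      n * (n - 2) ≤ C.E.card ∧ n * (n - 2) ≤ 2 * C.adds) ∧
    -- in particular, for the Walsh-Hadamard matrix
    (∀ (F : Type) [Field F] [CharZero F] (m : ℕ), 2 ≤ m →
      ∀ e : Fin (2 ^ m) ≃ (Fin m → ZMod 2),
      (∃ C : LinCircuit F (2 ^ m), C.Symm (actA e) ∧ C.Computes (walsh F e) ∧
        C.E.card = 2 ^ m * 2 ^ m ∧ C.adds = 2 ^ m * (2 ^ m - 1)) ∧
      ∀ C : LinCircuit F (2 ^ m), C.Symm (actA e) → C.Computes (walsh F e) →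
        2 ^ m * (2 ^ m - 2) ≤ C.E.card ∧ 2 ^ m * (2 ^ m - 2) ≤ 2 * C.adds) :=
  ⟨fun _ _ _ _ _ hG C hsym _ hval v hv => dichotomy hG C hsym hval v hv,
    fun _ _ _ _ hm e => ⟨⟨triv (walsh _ e), walsh_symm two_ne_zero e, triv_computes _,
      card_triv _, adds_triv _⟩, fun C h1 h2 => walsh_lower hm e C h1 h2⟩⟩

end Pool.Agent.Results.MP_5daf37_lc.TriplySymmetric
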